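import Pool.Agent.Helper15.DAK.Stmts

/-!
# DAK row ALG

A nonzero operator which kills the traces of the kernel of a nonzero derivation.
-/

set_option autoImplicit false

open AlgebraicGeometry CategoryTheory TopologicalSpace Opposite

namespace Pool.Agent.Helper15.DAK

open Pool.Agent.Helper15.DAF

namespace S91

theorem tmon_succ {K : Type} [Field K] [Algebra ℂ K] {n : ℕ} (t : Fin (n + 1) → Module.End ℂ K)
    (α : Fin (n + 1) → ℕ) :
    tmon t α = t 0 ^ α 0 * tmon (fun i => t i.succ) (fun i => α i.succ) := by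
  simp [tmon, List.ofFn_succ]

theorem tmon_mem {K : Type} [Field K] [Algebra ℂ K] {n : ℕ} (t : Fin n → Module.End ℂ K)
    (ht : ∀ i, IsDer (t i)) (α : Fin n → ℕ) : tmon t α ∈ DK K := by
  unfold tmon
  refine list_prod_mem (S := DK K) (fun x hx => ?_)
  rw [List.mem_ofFn] at hx
  obtain ⟨i, rfl⟩ := hx
  have hd : t i ∈ DK K := Algebra.subset_adjoin (Set.mem_union_right _ (ht i))
  exact pow_mem hd _

theorem mul_mem {K : Type} [Field K] [Algebra ℂ K] (a : K) : (mulOp a : Module.End ℂ K) ∈ DK K :=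
  Algebra.subset_adjoin (Or.inl ⟨a, rfl⟩)

theorem tr_pow {K L : Type} [Field K] [Field L] [Algebra ℂ K] [Algebra ℂ L] [Algebra K L]
    {d : Module.End ℂ K} {D : Module.End ℂ L}
    (h : ∀ f : L, Algebra.trace K L (D f) = d (Algebra.trace K L f)) (k : ℕ) (f : L) :
    Algebra.trace K L ((D ^ k) f) = (d ^ k) (Algebra.trace K L f) := by
  induction k generalizing f with
  | zero => rfl
  | succ k ih =>
    rw [pow_succ, pow_succ]
    exact (ih (D f)).trans (by rw [h f]; rfl)

theorem tr_tmon {K L : Type} [Field K] [Field L] [Algebra ℂ K] [Algebra ℂ L] [Algebra K L]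
    {n : ℕ} (t : Fin n → Module.End ℂ K) (T : Fin n → Module.End ℂ L)
    (h : ∀ i, ∀ f : L, Algebra.trace K L (T i f) = t i (Algebra.trace K L f))
    (α : Fin n → ℕ) (f : L) :
    Algebra.trace K L (tmon T α f) = tmon t α (Algebra.trace K L f) := by
  induction n with
  | zero => simp [tmon]
  | succ n ih =>
    rw [tmon_succ, tmon_succ]
    have h1 := ih (fun i => t i.succ) (fun i => T i.succ) (fun i => h i.succ) (fun i => α i.succ)
    have h2 := tr_pow (h 0) (α 0) (tmon (fun i => T i.succ) (fun i => α i.succ) f)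
    exact h2.trans (by rw [h1]; rfl)

/-- the number of exponents without `i0` -/
theorem cardB (n N : ℕ) (i0 : Fin n) :
    ((Fintype.piFinset fun _ : Fin n => Finset.range N).filter (fun β => β i0 = 0)).card ≤
      N ^ (n - 1) := by
  have hsub : (Fintype.piFinset fun _ : Fin n => Finset.range N).filter (fun β => β i0 = 0) ⊆
      Fintype.piFinset fun i : Fin n => if i = i0 then {0} else Finset.range N := by
    intro β hβ
    rw [Finset.mem_filter, Fintype.mem_piFinset] at hβ
    rw [Fintype.mem_piFinset]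
    intro i
    by_cases hi : i = i0
    · subst hi
      simp [hβ.2]
    · simpa [hi] using hβ.1 i
  refine (Finset.card_le_card hsub).trans ?_
  rw [Fintype.card_piFinset, ← Finset.mul_prod_erase Finset.univ _ (Finset.mem_univ i0)]
  have h1 : ∏ i ∈ Finset.univ.erase i0, (if i = i0 then ({0} : Finset ℕ) else Finset.range N).card
      = N ^ (n - 1) := by
    rw [Finset.prod_congr rfl (g := fun _ => N)]
    · rw [Finset.prod_const, Finset.card_erase_of_mem (Finset.mem_univ i0), Finset.card_univ,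
        Fintype.card_fin]
    · intro i hi
      have : i ≠ i0 := Finset.ne_of_mem_erase hi
      simp [this]
  rw [h1]
  simp

theorem count (n d : ℕ) (hn : 0 < n) :
    d * (n * (d * n ^ (n - 1)) + 1) ^ (n - 1) < (d * n ^ (n - 1) + 1) ^ n := by
  obtain ⟨m, hm⟩ : ∃ m, m = d * n ^ (n - 1) := ⟨_, rfl⟩
  rw [← hm]
  have h1 : n * m + 1 ≤ n * (m + 1) := by nlinarith
  calc d * (n * m + 1) ^ (n - 1) ≤ d * (n * (m + 1)) ^ (n - 1) :=
        Nat.mul_le_mul_left _ (Nat.pow_le_pow_left h1 _)
    _ = m * (m + 1) ^ (n - 1) := by rw [mul_pow, hm]; ring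
    _ < (m + 1) * (m + 1) ^ (n - 1) :=
        Nat.mul_lt_mul_of_pos_right (Nat.lt_succ_self m) (by positivity)
    _ = (m + 1) ^ n := by
        rw [← pow_succ']
        congr 1
        omega

/-- linear algebra: a nonzero solution -/
theorem sol {K L : Type} [Field K] [Field L] [Algebra K L] [FiniteDimensional K L]
    {I : Type} (A B : Finset I) (h : B.card * Module.finrank K L < A.card) (c : I → I → L) :
    ∃ p : I → K, (∃ α ∈ A, p α ≠ 0) ∧
      ∀ β ∈ B, ∑ α ∈ A, algebraMap K L (p α) * c α β = 0 := by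
  classical
  let Ψ : (A → K) →ₗ[K] (B → L) :=
    { toFun := fun p β => ∑ α : A, p α • c α β
      map_add' := by
        intro p q
        funext β
        simp [add_smul, Finset.sum_add_distrib]
      map_smul' := by
        intro a p
        funext β
        simp [Finset.smul_sum, smul_smul] }
  have hlt : Module.finrank K (B → L) < Module.finrank K (A → K) := by
    rw [Module.finrank_pi_fintype, Module.finrank_fintype_fun_eq_card]
    simpa using h
  have hk := LinearMap.ker_ne_bot_of_finrank_lt (f := Ψ) hlt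
  obtain ⟨p, hp, hp0⟩ := Submodule.exists_mem_ne_zero_of_ne_bot hk
  obtain ⟨α0, hα0⟩ := Function.ne_iff.1 hp0
  refine ⟨fun α => if h : α ∈ A then p ⟨α, h⟩ else 0, ⟨α0.1, α0.2, ?_⟩, ?_⟩
  · simpa using hα0
  · intro β hβ
    have h1 := congrFun (LinearMap.mem_ker.1 hp) ⟨β, hβ⟩
    rw [← Finset.sum_coe_sort A]
    simpa [Ψ, Algebra.smul_def] using h1

end S91

open S91 in
theorem st_ALG (hLIFTD : ST_LIFTD) (hTRD : ST_TRD) (hCOORDL : ST_COORDL) (hSPAN : ST_SPAN)
    (hLIND : ST_LIND) : ST_ALG := by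
  classical
  intro K L _ _ _ _ _ _ _ n t y hy v hv hv0
  obtain ⟨hder, hty, hgen⟩ := hy
  have hT : ∀ i, ∃ D : Module.End ℂ L, IsDer D ∧
      ∀ a : K, D (algebraMap K L a) = algebraMap K L (t i a) := fun i => hLIFTD K L (t i) (hder i)
  choose T hTd hTe using hT
  obtain ⟨hcomm, hgen'⟩ := hCOORDL K L n t y ⟨hder, hty, hgen⟩ T hTd hTe
  have htr : ∀ i, ∀ f : L, Algebra.trace K L (T i f) = t i (Algebra.trace K L f) :=
    fun i => hTRD K L (t i) (T i) (hder i) (hTd i) (hTe i)
  have hva := hgen' v hv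
  obtain ⟨a, ha⟩ : ∃ a : Fin n → L, a = fun i => v (algebraMap K L (y i)) := ⟨_, rfl⟩
  have hva' : ∀ f : L, v f = ∑ i, a i * T i f := by
    intro f
    have h1 := LinearMap.congr_fun hva f
    rw [h1, LinearMap.sum_apply, ha]
    rfl
  have hex : ∃ i0, a i0 ≠ 0 := by
    by_contra hcon
    push Not at hcon
    apply hv0
    apply LinearMap.ext
    intro f
    rw [hva' f]
    simp [hcon]
  obtain ⟨i0, hi0⟩ := hex
  have hn : 0 < n := i0.pos
  obtain ⟨d, hd⟩ : ∃ d, d = Module.finrank K L := ⟨_, rfl⟩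
  obtain ⟨m, hm⟩ : ∃ m, m = d * n ^ (n - 1) := ⟨_, rfl⟩
  obtain ⟨A, hA⟩ : ∃ A : Finset (Fin n → ℕ),
      A = Fintype.piFinset fun _ : Fin n => Finset.range (m + 1) := ⟨_, rfl⟩
  obtain ⟨B, hB⟩ : ∃ B : Finset (Fin n → ℕ),
      B = (Fintype.piFinset fun _ : Fin n => Finset.range (n * m + 1)).filter
        (fun β => β i0 = 0) := ⟨_, rfl⟩
  have hAc : A.card = (m + 1) ^ n := by
    rw [hA, Fintype.card_piFinset]
    simp
  have hBc : B.card ≤ (n * m + 1) ^ (n - 1) := by
    rw [hB]
    exact cardB n (n * m + 1) i0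
  have hlt : B.card * Module.finrank K L < A.card := by
    rw [← hd, hAc, mul_comm]
    refine lt_of_le_of_lt (Nat.mul_le_mul_left d hBc) ?_
    rw [hm]
    exact count n d hn
  have hsp : ∀ α ∈ A, ∃ c : (Fin n → ℕ) → L, ∀ f : L, (∑ i, a i * T i f = 0) →
      tmon T α f = ∑ β ∈ B, c β * tmon T β f := by
    intro α hα
    rw [hB]
    refine hSPAN L n T a i0 hTd hcomm hi0 (n * m) α ?_
    rw [hA, Fintype.mem_piFinset] at hα
    calc ∑ i, α i ≤ ∑ _i : Fin n, m := Finset.sum_le_sum fun i _ => by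
          have := Finset.mem_range.1 (hα i)
          omega
      _ = n * m := by simp
  choose! c hc using hsp
  obtain ⟨p, ⟨α0, hα0, hp0⟩, hp⟩ := sol (K := K) A B hlt c
  refine ⟨∑ α ∈ A, mulOp (p α) * tmon t α, ?_, ?_, ?_⟩
  · exact Subalgebra.sum_mem _ fun α _ =>
      Subalgebra.mul_mem _ (mul_mem (p α)) (tmon_mem t hder α)
  · intro h0
    exact hp0 (hLIND K n t y ⟨hder, hty, hgen⟩ A p h0 α0 hα0)
  · intro f hf
    have hf' : ∑ i, a i * T i f = 0 := by rw [← hva' f]; exact hf
    have e1 : (∑ α ∈ A, mulOp (p α) * tmon t α) (Algebra.trace K L f) =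
        ∑ α ∈ A, p α * tmon t α (Algebra.trace K L f) := by
      rw [LinearMap.sum_apply]
      rfl
    rw [e1]
    have e2 : ∀ α ∈ A, p α * tmon t α (Algebra.trace K L f) =
        Algebra.trace K L (algebraMap K L (p α) * ∑ β ∈ B, c α β * tmon T β f) := by
      intro α hα
      rw [← tr_tmon t T htr α f, hc α hα f hf', ← Algebra.smul_def, map_smul, smul_eq_mul]
    rw [Finset.sum_congr rfl e2, ← map_sum]
    have e3 : ∑ α ∈ A, algebraMap K L (p α) * ∑ β ∈ B, c α β * tmon T β f = 0 := by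
      simp only [Finset.mul_sum]
      rw [Finset.sum_comm]
      refine Finset.sum_eq_zero fun β hβ => ?_
      have h1 := hp β hβ
      calc ∑ α ∈ A, algebraMap K L (p α) * (c α β * tmon T β f) =
            (∑ α ∈ A, algebraMap K L (p α) * c α β) * tmon T β f := by
            rw [Finset.sum_mul]
            exact Finset.sum_congr rfl fun α _ => by ring
        _ = 0 := by rw [h1, zero_mul]
    rw [e3, map_zero]

end Pool.Agent.Helper15.DAK
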