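import Pool.Agent.Helper15.DAK.Stmts

/-!
# DAK row SPAN

On the kernel of a combination of commuting derivations one of them can be eliminated from the
monomials.
-/

set_option autoImplicit false

open AlgebraicGeometry CategoryTheory TopologicalSpace Opposite

namespace Pool.Agent.Helper15.DAK

open Pool.Agent.Helper15.DAF

namespace S91S

theorem tmon_succ {K : Type} [Field K] [Algebra ℂ K] {n : ℕ} (t : Fin (n + 1) → Module.End ℂ K)
    (α : Fin (n + 1) → ℕ) :
    tmon t α = t 0 ^ α 0 * tmon (fun i => t i.succ) (fun i => α i.succ) := by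
  simp [tmon, List.ofFn_succ]

theorem tmon_comm {L : Type} [Field L] [Algebra ℂ L] {n : ℕ} {T : Fin n → Module.End ℂ L}
    (P : Module.End ℂ L) (hP : ∀ i, Commute P (T i)) (α : Fin n → ℕ) :
    Commute P (tmon T α) := by
  induction n with
  | zero => simp [tmon]
  | succ n ih =>
    rw [tmon_succ]
    exact ((hP 0).pow_right _).mul_right (ih (fun i => hP i.succ) _)

theorem tmon_single {L : Type} [Field L] [Algebra ℂ L] {n : ℕ} {T : Fin n → Module.End ℂ L}
    (hc : ∀ i j, T i * T j = T j * T i) (β : Fin n → ℕ) (j : Fin n) :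
    tmon T (β + Pi.single j 1) = T j * tmon T β := by
  induction n with
  | zero => exact j.elim0
  | succ n ih =>
    rw [tmon_succ, tmon_succ]
    refine Fin.cases ?_ (fun j => ?_) j
    · have e : (fun i : Fin n => (β + Pi.single (0 : Fin (n + 1)) 1 : Fin (n + 1) → ℕ) i.succ) =
          fun i => β i.succ := by
        funext i
        simp
      rw [e]
      simp only [Pi.add_apply, Pi.single_eq_same]
      rw [pow_succ', mul_assoc]
    · have e : (fun i : Fin n => (β + Pi.single (j.succ : Fin (n + 1)) 1 : Fin (n + 1) → ℕ) i.succ) =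
          (fun i => β i.succ) + Pi.single j 1 := by
        funext i
        by_cases hi : i = j
        · subst hi
          simp
        · have : i.succ ≠ j.succ := fun h => hi (Fin.succ_injective _ h)
          simp [Pi.single_eq_of_ne hi, Pi.single_eq_of_ne this]
      rw [e, ih (fun i k => hc i.succ k.succ)]
      have e0 : (β + Pi.single (j.succ : Fin (n + 1)) 1 : Fin (n + 1) → ℕ) 0 = β 0 := by
        simp
      rw [e0, ← mul_assoc, ← mul_assoc]
      congr 1
      exact ((Commute.pow_left (hc 0 j.succ) (β 0)).eq)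

variable {L : Type} [Field L] [Algebra ℂ L] {n : ℕ}

/-- the kernel -/
def Kr (T : Fin n → Module.End ℂ L) (a : Fin n → L) : Type := {f : L // ∑ i, a i * T i f = 0}

/-- monomials on the kernel -/
noncomputable def mf (T : Fin n → Module.End ℂ L) (a : Fin n → L) (β : Fin n → ℕ) : Kr T a → L :=
  fun f => tmon T β f.1

/-- combinations of monomials without `i0` of degree at most `m` on the kernel -/
noncomputable def W (T : Fin n → Module.End ℂ L) (a : Fin n → L) (i0 : Fin n) (m : ℕ) :
    Submodule L (Kr T a → L) :=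
  Submodule.span L (mf T a '' {β | β i0 = 0 ∧ ∑ i, β i ≤ m})

theorem W_mono (T : Fin n → Module.End ℂ L) (a : Fin n → L) (i0 : Fin n) {m k : ℕ} (h : m ≤ k) :
    W T a i0 m ≤ W T a i0 k :=
  Submodule.span_mono (Set.image_mono fun _ hβ => ⟨hβ.1, hβ.2.trans h⟩)

/-- an operator acts -/
def Acts (T : Fin n → Module.End ℂ L) (a : Fin n → L) (i0 : Fin n) (P : Module.End ℂ L)
    (k : ℕ) : Prop :=
  ∀ m : ℕ, ∀ g ∈ W T a i0 m, (fun f => P (g f)) ∈ W T a i0 (m + k)

theorem acts_gen {T : Fin n → Module.End ℂ L} {a : Fin n → L} {i0 : Fin n} {D : Module.End ℂ L}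
    (hD : IsDer D) (h : ∀ m : ℕ, ∀ β : Fin n → ℕ, β i0 = 0 → ∑ i, β i ≤ m →
      (fun f => D (mf T a β f)) ∈ W T a i0 (m + 1)) : Acts T a i0 D 1 := by
  intro m g hg
  unfold W at hg
  induction hg using Submodule.span_induction with
  | mem x hx =>
    obtain ⟨β, hβ, rfl⟩ := hx
    exact h m β hβ.1 hβ.2
  | zero =>
    have : (fun f : Kr T a => D ((0 : Kr T a → L) f)) = 0 := by
      funext f
      simp
    rw [this]
    exact Submodule.zero_mem _
  | add x y hx hy h1 h2 =>
    have : (fun f : Kr T a => D ((x + y) f)) = (fun f => D (x f)) + fun f => D (y f) := by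
      funext f
      simp
    rw [this]
    exact Submodule.add_mem _ h1 h2
  | smul c x hx h1 =>
    have : (fun f : Kr T a => D ((c • x) f)) = c • (fun f => D (x f)) + D c • x := by
      funext f
      simp only [Pi.smul_apply, Pi.add_apply, smul_eq_mul]
      rw [hD c (x f)]
      ring
    rw [this]
    exact Submodule.add_mem _ (Submodule.smul_mem _ _ h1)
      (Submodule.smul_mem _ _ (W_mono T a i0 (Nat.le_succ m) hx))

theorem acts_pow {T : Fin n → Module.End ℂ L} {a : Fin n → L} {i0 : Fin n} {D : Module.End ℂ L}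
    (hD : Acts T a i0 D 1) (k : ℕ) : Acts T a i0 (D ^ k) k := by
  induction k with
  | zero => intro m g hg; exact hg
  | succ k ih =>
    intro m g hg
    have h1 := hD (m + k) _ (ih m g hg)
    rw [pow_succ']
    exact h1

theorem acts_list {T : Fin n → Module.End ℂ L} {a : Fin n → L} {i0 : Fin n} (β : Fin n → ℕ)
    (h : ∀ i, β i ≠ 0 → Acts T a i0 (T i) 1) (l : List (Fin n)) :
    Acts T a i0 ((l.map fun i => T i ^ β i).prod) (l.map β).sum := by
  induction l with
  | nil => intro m g hg; exact hg
  | cons i l ih =>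
    intro m g hg
    have h1 := ih m g hg
    have h2 : Acts T a i0 (T i ^ β i) (β i) := by
      by_cases h0 : β i = 0
      · rw [h0, pow_zero]
        intro m g hg
        exact hg
      · exact acts_pow (h i h0) (β i)
    have h3 := h2 _ _ h1
    simp only [List.map_cons, List.prod_cons, List.sum_cons]
    have e : m + (β i + (l.map β).sum) = m + (l.map β).sum + β i := by ring
    rw [e]
    exact h3

theorem acts_tmon {T : Fin n → Module.End ℂ L} {a : Fin n → L} {i0 : Fin n} (β : Fin n → ℕ)
    (h : ∀ i, β i ≠ 0 → Acts T a i0 (T i) 1) : Acts T a i0 (tmon T β) (∑ i, β i) := by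
  have h1 := acts_list β h (List.finRange n)
  rw [← List.ofFn_eq_map, ← List.ofFn_eq_map, List.sum_ofFn] at h1
  exact h1

theorem tmon_zero (T : Fin n → Module.End ℂ L) : tmon T (0 : Fin n → ℕ) = 1 := by
  unfold tmon
  refine List.prod_eq_one (fun x hx => ?_)
  rw [List.mem_ofFn] at hx
  obtain ⟨i, rfl⟩ := hx
  exact pow_zero _

theorem id_mem (T : Fin n → Module.End ℂ L) (a : Fin n → L) (i0 : Fin n) :
    (fun f : Kr T a => f.1) ∈ W T a i0 0 := by
  refine Submodule.subset_span ⟨0, ⟨rfl, by simp⟩, ?_⟩
  funext f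
  unfold mf
  rw [tmon_zero]
  rfl

end S91S

open S91S in
theorem st_SPAN : ST_SPAN := by
  classical
  intro L _ _ n T a i0 hd hc ha m α hα
  -- the derivations different from `T i0` act
  have s1 : ∀ j, j ≠ i0 → Acts T a i0 (T j) 1 := by
    intro j hj
    refine acts_gen (hd j) (fun m β h0 hβ => ?_)
    refine Submodule.subset_span ⟨β + Pi.single j 1, ⟨?_, ?_⟩, ?_⟩
    · simp [h0, Pi.single_eq_of_ne (Ne.symm hj)]
    · simp only [Pi.add_apply, Finset.sum_add_distrib]
      have : ∑ i, (Pi.single j 1 : Fin n → ℕ) i = 1 := by simp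
      omega
    · funext f
      unfold mf
      rw [tmon_single hc]
      rfl
  -- `T i0` on the kernel
  have s2 : (fun f : Kr T a => T i0 f.1) ∈ W T a i0 1 := by
    have e : (fun f : Kr T a => T i0 f.1) =
        ∑ i ∈ Finset.univ.erase i0, (-(a i / a i0)) • (fun f : Kr T a => T i f.1) := by
      funext f
      have h1 := f.2
      rw [← Finset.add_sum_erase _ _ (Finset.mem_univ i0)] at h1
      have h2 : T i0 f.1 = -(∑ i ∈ Finset.univ.erase i0, a i * T i f.1) / a i0 := by
        rw [eq_div_iff ha]
        linear_combination h1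
      rw [h2, Finset.sum_apply, neg_div, Finset.sum_div, ← Finset.sum_neg_distrib]
      refine Finset.sum_congr rfl fun i _ => ?_
      simp only [Pi.smul_apply, smul_eq_mul]
      ring
    rw [e]
    refine Submodule.sum_mem _ fun i hi => Submodule.smul_mem _ _ ?_
    have h3 := s1 i (Finset.ne_of_mem_erase hi) 0 _ (id_mem T a i0)
    rw [zero_add] at h3
    exact h3
  have s3 : Acts T a i0 (T i0) 1 := by
    refine acts_gen (hd i0) (fun m β h0 hβ => ?_)
    have h1 : Acts T a i0 (tmon T β) (∑ i, β i) := by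
      refine acts_tmon β (fun i hi => s1 i ?_)
      rintro rfl
      exact hi h0
    have h2 := h1 1 _ s2
    have h3 : (fun f : Kr T a => T i0 (mf T a β f)) = fun f => tmon T β (T i0 f.1) := by
      funext f
      exact LinearMap.congr_fun (tmon_comm (T i0) (fun i => hc i0 i) β).eq f.1
    rw [h3]
    exact W_mono T a i0 (by omega) h2
  have s4 : ∀ j, Acts T a i0 (T j) 1 := by
    intro j
    by_cases hj : j = i0
    · rw [hj]; exact s3
    · exact s1 j hj
  have s5 := acts_tmon α (fun i _ => s4 i) 0 _ (id_mem T a i0)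
  rw [zero_add] at s5
  have s6 := W_mono T a i0 hα s5
  have s7 : W T a i0 m ≤ Submodule.span L (mf T a '' ((((Fintype.piFinset fun _ : Fin n =>
      Finset.range (m + 1)).filter (fun β => β i0 = 0)) : Finset (Fin n → ℕ)) :
        Set (Fin n → ℕ))) := by
    refine Submodule.span_mono (Set.image_mono fun β hβ => ?_)
    rw [Finset.mem_coe, Finset.mem_filter, Fintype.mem_piFinset]
    refine ⟨fun i => ?_, hβ.1⟩
    have h1 : β i ≤ ∑ i, β i := Finset.single_le_sum (fun _ _ => Nat.zero_le _)
      (Finset.mem_univ i)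
    rw [Finset.mem_range]
    have := hβ.2
    omega
  obtain ⟨c, hcc⟩ := (Submodule.mem_span_image_finset_iff_exists_fun' L).1 (s7 s6)
  refine ⟨c, fun f hf => ?_⟩
  have h1 := congrFun hcc ⟨f, hf⟩
  rw [Finset.sum_apply] at h1
  exact h1.symm

end Pool.Agent.Helper15.DAK
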